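import Mathlib

set_option autoImplicit false
set_option linter.all false

/-! Vectors symmetric or antisymmetric under finite sets of letters. -/

namespace Pool.Agent.H516R3.Alt

open Equiv

variable {V : Type*} [AddCommGroup V] [Module ℂ V]

/-- operators indexed by pairs of letters satisfying the relations of transpositions -/
structure SwapSys (T : ℕ → ℕ → Module.End ℂ V) : Prop where
  symm : ∀ a b, T a b = T b a
  sq : ∀ a b ξ, a ≠ b → T a b (T a b ξ) = ξ
  rel : ∀ a y z ξ, a ≠ y → a ≠ z → y ≠ z → T a z (T y z ξ) = T y z (T a y ξ)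
  comm : ∀ a b y z ξ, a ≠ b → y ≠ z → a ≠ y → a ≠ z → b ≠ y → b ≠ z →
    T a b (T y z ξ) = T y z (T a b ξ)

/-- invariance under the operators of letters of `X` -/
def SymT (T : ℕ → ℕ → Module.End ℂ V) (X : Finset ℕ) (ξ : V) : Prop :=
  ∀ a ∈ X, ∀ b ∈ X, a ≠ b → T a b ξ = ξ

lemma SwapSys.neg {T : ℕ → ℕ → Module.End ℂ V} (h : SwapSys T) :
    SwapSys (fun a b => -(T a b)) where
  symm a b := by simp only [h.symm a b]
  sq a b ξ hab := by simp [h.sq a b ξ hab]
  rel a y z ξ h1 h2 h3 := by simp [h.rel a y z ξ h1 h2 h3]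
  comm a b y z ξ h1 h2 h3 h4 h5 h6 := by simp [h.comm a b y z ξ h1 h2 h3 h4 h5 h6]

lemma sym_step {T : ℕ → ℕ → Module.End ℂ V} (h : SwapSys T) {Y : Finset ℕ} {η : V}
    (hη : SymT T Y η) {z : ℕ} (hz : z ∉ Y) :
    SymT T (insert z Y) (η + ∑ y ∈ Y, T y z η) := by
  have key : ∀ b ∈ Y, T z b (η + ∑ y ∈ Y, T y z η) = η + ∑ y ∈ Y, T y z η := by
    intro b hb
    have hbz : b ≠ z := fun e => hz (e ▸ hb)
    rw [← Finset.add_sum_erase Y _ hb, map_add, map_add, map_sum]
    have h1 : T z b (T b z η) = η := by rw [h.symm z b]; exact h.sq b z η hbz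
    have h2 : ∑ y ∈ Y.erase b, T z b (T y z η) = ∑ y ∈ Y.erase b, T y z η := by
      refine Finset.sum_congr rfl fun y hy => ?_
      obtain ⟨hyb, hyY⟩ := Finset.mem_erase.mp hy
      have hyz : y ≠ z := fun e => hz (e ▸ hyY)
      rw [h.symm z b, h.rel b y z η hyb.symm hbz hyz, hη b hb y hyY hyb.symm]
    rw [h1, h2, h.symm z b]
    abel
  intro a ha b hb hab
  rcases Finset.mem_insert.mp ha with rfl | ha'
  · rcases Finset.mem_insert.mp hb with rfl | hb'
    · exact absurd rfl hab
    · exact key b hb'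
  · rcases Finset.mem_insert.mp hb with rfl | hb'
    · rw [h.symm a b]; exact key a ha'
    · have haz : a ≠ z := fun e => hz (e ▸ ha')
      have hbz : b ≠ z := fun e => hz (e ▸ hb')
      have hb'' : b ∈ Y.erase a := Finset.mem_erase.mpr ⟨hab.symm, hb'⟩
      rw [← Finset.add_sum_erase Y _ ha', ← Finset.add_sum_erase (Y.erase a) _ hb'',
        map_add, map_add, map_add, map_sum, hη a ha' b hb' hab]
      have h1 : T a b (T a z η) = T b z η := by
        have e1 := h.rel b z a η hbz hab.symm haz.symm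
        have e2 := h.rel a b z η hab haz hbz
        rw [h.symm b a, h.symm z a, e2, hη a ha' b hb' hab] at e1
        exact e1
      have h2 : T a b (T b z η) = T a z η := by
        have e1 := h.rel a z b η haz hab hbz.symm
        have e2 := h.rel b a z η hab.symm hbz haz
        rw [h.symm z b, e2, h.symm b a, hη a ha' b hb' hab] at e1
        exact e1
      have h3 : ∑ y ∈ (Y.erase a).erase b, T a b (T y z η)
          = ∑ y ∈ (Y.erase a).erase b, T y z η := by
        refine Finset.sum_congr rfl fun y hy => ?_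
        obtain ⟨hyb, hy1⟩ := Finset.mem_erase.mp hy
        obtain ⟨hya, hyY⟩ := Finset.mem_erase.mp hy1
        have hyz : y ≠ z := fun e => hz (e ▸ hyY)
        rw [h.comm a b y z η hab hyz hya.symm haz hyb.symm hbz, hη a ha' b hb' hab]
      rw [h1, h2, h3]
      abel

lemma claim {T : ℕ → ℕ → Module.End ℂ V} (h : SwapSys T) (m : ℕ) :
    ∀ (Ω : Finset ℕ) (W : Submodule ℂ V), W ≠ ⊥ →
      (∀ a b, a ≠ b → a ∉ Ω → b ∉ Ω → ∀ ξ ∈ W, T a b ξ ∈ W) →
      (∀ X : Finset ℕ, Disjoint X Ω → X.card = m → ∀ ξ ∈ W,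
        SymT (fun a b => -(T a b)) X ξ → ξ = 0) →
      ∀ n : ℕ, ∃ X : Finset ℕ, Disjoint X Ω ∧ X.card = n ∧ ∃ ξ ∈ W, ξ ≠ 0 ∧ SymT T X ξ := by
  induction m with
  | zero =>
    intro Ω W hW _ hno n
    exfalso
    apply hW
    rw [Submodule.eq_bot_iff]
    intro ξ hξ
    exact hno ∅ (Finset.disjoint_empty_left _) rfl ξ hξ (by intro a ha; simp at ha)
  | succ m ih =>
    intro Ω W hW hinv hno
    rcases Nat.eq_zero_or_pos m with rfl | hm
    · intro n
      exfalso
      apply hW
      rw [Submodule.eq_bot_iff]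
      intro ξ hξ
      obtain ⟨x, hx⟩ := Infinite.exists_notMem_finset Ω
      refine hno {x} (by simpa using hx) (by simp) ξ hξ ?_
      intro a ha b hb hab
      rw [Finset.mem_singleton] at ha hb
      exact absurd (ha.trans hb.symm) hab
    intro n
    induction n with
    | zero =>
      obtain ⟨ξ, hξ, hne⟩ := (Submodule.ne_bot_iff W).mp hW
      exact ⟨∅, Finset.disjoint_empty_left _, rfl, ξ, hξ, hne, by intro a ha; simp at ha⟩
    | succ k ihk =>
      by_contra hcon
      push Not at hcon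
      obtain ⟨Y, hYΩ, hYc, ξ₀, hξ₀, hξne, hξs⟩ := ihk
      let W' : Submodule ℂ V :=
        { carrier := {ξ | ξ ∈ W ∧ SymT T Y ξ}
          add_mem' := by
            rintro x y ⟨hx, hx'⟩ ⟨hy, hy'⟩
            refine ⟨W.add_mem hx hy, ?_⟩
            intro a ha b hb hab
            rw [map_add, hx' a ha b hb hab, hy' a ha b hb hab]
          zero_mem' := ⟨W.zero_mem, by intro a ha b hb hab; exact map_zero _⟩
          smul_mem' := by
            rintro c x ⟨hx, hx'⟩
            refine ⟨W.smul_mem c hx, ?_⟩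
            intro a ha b hb hab
            rw [map_smul, hx' a ha b hb hab] }
      have hW'ne : W' ≠ ⊥ := by
        rw [Submodule.ne_bot_iff]
        exact ⟨ξ₀, ⟨hξ₀, hξs⟩, hξne⟩
      have hW'inv : ∀ a b, a ≠ b → a ∉ Ω ∪ Y → b ∉ Ω ∪ Y → ∀ ξ ∈ W', T a b ξ ∈ W' := by
        rintro a b hab ha hb ξ ⟨hξ, hξ'⟩
        rw [Finset.mem_union, not_or] at ha hb
        refine ⟨hinv a b hab ha.1 hb.1 ξ hξ, ?_⟩
        intro c hc d hd hcd
        have hca : c ≠ a := fun e => ha.2 (e ▸ hc)
        have hcb : c ≠ b := fun e => hb.2 (e ▸ hc)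
        have hda : d ≠ a := fun e => ha.2 (e ▸ hd)
        have hdb : d ≠ b := fun e => hb.2 (e ▸ hd)
        rw [h.comm c d a b ξ hcd hab hca hcb hda hdb, hξ' c hc d hd hcd]
      have hno' : ∀ Z : Finset ℕ, Disjoint Z (Ω ∪ Y) → Z.card = m → ∀ η ∈ W',
          SymT (fun a b => -(T a b)) Z η → η = 0 := by
        rintro Z hZ hZc η ⟨hη, hηs⟩ hηa
        rw [Finset.disjoint_union_right] at hZ
        have hzY : ∀ z ∈ Z, z ∉ Y := fun z hz => Finset.disjoint_left.mp hZ.2 hz
        have hyZ : ∀ y ∈ Y, y ∉ Z := fun y hy hy' => hzY y hy' hy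
        have e1 : ∀ z ∈ Z, η + ∑ y ∈ Y, T y z η = 0 := by
          intro z hz
          by_contra hne
          refine hcon (insert z Y) ?_ ?_ _ ?_ hne (sym_step h hηs (hzY z hz))
          · rw [Finset.disjoint_insert_left]
            exact ⟨Finset.disjoint_left.mp hZ.1 hz, hYΩ⟩
          · rw [Finset.card_insert_of_notMem (hzY z hz), hYc]
          · refine W.add_mem hη (W.sum_mem fun y hy => ?_)
            exact hinv y z (fun e => hzY z hz (e ▸ hy)) (Finset.disjoint_left.mp hYΩ hy)
              (Finset.disjoint_left.mp hZ.1 hz) η hη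
        have e2 : ∀ y ∈ Y, η + ∑ z ∈ Z, (-(T z y)) η = 0 := by
          intro y hy
          refine hno (insert y Z) ?_ ?_ _ ?_ (sym_step h.neg hηa (hyZ y hy))
          · rw [Finset.disjoint_insert_left]
            exact ⟨Finset.disjoint_left.mp hYΩ hy, hZ.1⟩
          · rw [Finset.card_insert_of_notMem (hyZ y hy), hZc]
          · refine W.add_mem hη (W.sum_mem fun z hz => ?_)
            rw [LinearMap.neg_apply]
            refine W.neg_mem ?_
            exact hinv z y (fun e => hyZ y hy (e ▸ hz)) (Finset.disjoint_left.mp hZ.1 hz)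
              (Finset.disjoint_left.mp hYΩ hy) η hη
        have s1 : ∑ z ∈ Z, (η + ∑ y ∈ Y, T y z η) = 0 :=
          Finset.sum_eq_zero fun z hz => e1 z hz
        have s2 : ∑ y ∈ Y, (η + ∑ z ∈ Z, (-(T z y)) η) = 0 :=
          Finset.sum_eq_zero fun y hy => e2 y hy
        rw [Finset.sum_add_distrib, Finset.sum_const, hZc] at s1
        rw [Finset.sum_add_distrib, Finset.sum_const, hYc, Finset.sum_comm] at s2
        have s3 : ∑ z ∈ Z, ∑ y ∈ Y, (-(T z y)) η = -∑ z ∈ Z, ∑ y ∈ Y, T y z η := by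
          rw [← Finset.sum_neg_distrib]
          refine Finset.sum_congr rfl fun z hz => ?_
          rw [← Finset.sum_neg_distrib]
          refine Finset.sum_congr rfl fun y hy => ?_
          rw [LinearMap.neg_apply, h.symm z y]
        rw [s3] at s2
        have s4 : m • η + k • η = 0 := by
          have : m • η + k • η = (m • η + ∑ z ∈ Z, ∑ y ∈ Y, T y z η)
            + (k • η + -∑ z ∈ Z, ∑ y ∈ Y, T y z η) := by abel
          rw [this, s1, s2, add_zero]
        rw [← add_smul, ← Nat.cast_smul_eq_nsmul ℂ] at s4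
        rcases smul_eq_zero.mp s4 with h0 | h0
        · exfalso
          have : m + k = 0 := by exact_mod_cast h0
          omega
        · exact h0
      obtain ⟨X, hX, hXc, ξ, hξ, hξn, hξS⟩ := ih (Ω ∪ Y) W' hW'ne hW'inv hno' (k + 1)
      exact hcon X (Finset.disjoint_of_subset_right Finset.subset_union_left hX) hXc ξ hξ.1
        hξn hξS

/-- the transposition operators of a representation of `Perm ℕ` -/
lemma swapSys_perm (ρ : Perm ℕ →* Module.End ℂ V) : SwapSys (fun a b => ρ (swap a b)) where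
  symm a b := by simp only [swap_comm a b]
  sq a b ξ hab := by
    rw [← Module.End.mul_apply, ← map_mul, swap_mul_self, map_one]; rfl
  rel a y z ξ h1 h2 h3 := by
    rw [← Module.End.mul_apply, ← map_mul, ← Module.End.mul_apply, ← map_mul]
    congr 2
    ext x
    simp only [Perm.coe_mul, Function.comp_apply, swap_apply_def]
    split_ifs <;> simp_all
  comm a b y z ξ h1 h2 h3 h4 h5 h6 := by
    rw [← Module.End.mul_apply, ← map_mul, ← Module.End.mul_apply, ← map_mul]
    congr 2
    rw [mul_swap_eq_swap_mul, swap_apply_of_ne_of_ne h3.symm h5.symm,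
      swap_apply_of_ne_of_ne h4.symm h6.symm]

end Pool.Agent.H516R3.Alt
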