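import Pool.Agent.H516R3.Alt.T1

set_option autoImplicit false
set_option linter.all false

/-! The finitary alternating group and its representations. -/

namespace Pool.Agent.H516R3.Alt

open Equiv

/-- The finitary alternating group of `ℕ`: the permutations of `ℕ` which are products of an even
number of transpositions. -/
def FAlt : Subgroup (Perm ℕ) :=
  Subgroup.closure {g | ∃ a b c d : ℕ, a ≠ b ∧ c ≠ d ∧ g = swap a b * swap c d}

lemma swap2_mem {a b c d : ℕ} (h : a ≠ b) (h' : c ≠ d) : swap a b * swap c d ∈ FAlt :=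
  Subgroup.subset_closure ⟨a, b, c, d, h, h', rfl⟩

/-- the element `(a b)(c d)` -/
def s2 (a b c d : ℕ) (h : a ≠ b) (h' : c ≠ d) : FAlt := ⟨swap a b * swap c d, swap2_mem h h'⟩

/-- the group of finitary permutations -/
def FSym : Subgroup (Perm ℕ) := Subgroup.closure {g | ∃ a b : ℕ, a ≠ b ∧ g = swap a b}

lemma fsym_parity {h : Perm ℕ} (hh : h ∈ FSym) :
    h ∈ FAlt ∨ ∀ a b : ℕ, a ≠ b → swap a b * h ∈ FAlt := by
  refine Subgroup.closure_induction_left (p := fun h _ => h ∈ FAlt ∨
    ∀ a b : ℕ, a ≠ b → swap a b * h ∈ FAlt) ?_ ?_ ?_ hh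
  · exact Or.inl (one_mem _)
  · rintro x ⟨c, d, hcd, rfl⟩ y hy hP
    rcases hP with hP | hP
    · right
      intro a b hab
      rw [← mul_assoc]
      exact mul_mem (swap2_mem hab hcd) hP
    · left
      exact hP c d hcd
  · rintro x ⟨c, d, hcd, rfl⟩ y hy hP
    rw [swap_inv]
    rcases hP with hP | hP
    · right
      intro a b hab
      rw [← mul_assoc]
      exact mul_mem (swap2_mem hab hcd) hP
    · left
      exact hP c d hcd

lemma fsym_move (X : Finset ℕ) : ∃ h ∈ FSym, ∀ i, i < X.card → h i ∈ X := by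
  induction X using Finset.induction_on with
  | empty => exact ⟨1, one_mem _, by simp⟩
  | insert x Y hx ih =>
    obtain ⟨h, hh, hm⟩ := ih
    rw [Finset.card_insert_of_notMem hx]
    have himg : (Finset.range Y.card).image h = Y := by
      apply Finset.eq_of_subset_of_card_le
      · intro y hy
        obtain ⟨i, hi, rfl⟩ := Finset.mem_image.mp hy
        exact hm i (Finset.mem_range.mp hi)
      · rw [Finset.card_image_of_injective _ h.injective, Finset.card_range]
    have hw : h Y.card ∉ Y := by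
      intro hmem
      have hmem' : h Y.card ∈ (Finset.range Y.card).image h := by rw [himg]; exact hmem
      obtain ⟨i, hi, hie⟩ := Finset.mem_image.mp hmem'
      have := h.injective hie
      rw [this] at hi
      simp at hi
    by_cases hwx : h Y.card = x
    · refine ⟨h, hh, fun i hi => ?_⟩
      rcases Nat.lt_succ_iff_lt_or_eq.mp hi with h1 | h1
      · exact Finset.mem_insert_of_mem (hm i h1)
      · rw [h1, hwx]; exact Finset.mem_insert_self _ _
    · refine ⟨swap (h Y.card) x * h, mul_mem (Subgroup.subset_closure ⟨_, _, hwx, rfl⟩) hh,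
        fun i hi => ?_⟩
      rw [Perm.mul_apply]
      rcases Nat.lt_succ_iff_lt_or_eq.mp hi with h1 | h1
      · have h2 := hm i h1
        rw [swap_apply_of_ne_of_ne]
        · exact Finset.mem_insert_of_mem h2
        · exact fun e => hw (e ▸ h2)
        · exact fun e => hx (e ▸ h2)
      · rw [h1, swap_apply_left]; exact Finset.mem_insert_self _ _

lemma falt_move (X : Finset ℕ) : ∃ h ∈ FAlt, ∀ i, i < X.card → h i ∈ X := by
  obtain ⟨h, hh, hm⟩ := fsym_move X
  rcases fsym_parity hh with hp | hp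
  · exact ⟨h, hp, hm⟩
  · obtain ⟨a, ha⟩ := Infinite.exists_notMem_finset X
    obtain ⟨b, hb⟩ := Infinite.exists_notMem_finset (insert a X)
    rw [Finset.mem_insert, not_or] at hb
    refine ⟨swap a b * h, hp a b (Ne.symm hb.1), fun i hi => ?_⟩
    rw [Perm.mul_apply, swap_apply_of_ne_of_ne]
    · exact hm i hi
    · exact fun e => ha (e ▸ hm i hi)
    · exact fun e => hb.2 (e ▸ hm i hi)

variable {V : Type*} [AddCommGroup V] [Module ℂ V]

/-- invariance under the even permutations of `X` -/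
def EvenInv (ρ : FAlt →* Module.End ℂ V) (X : Finset ℕ) (ξ : V) : Prop :=
  ∀ a ∈ X, ∀ b ∈ X, ∀ c ∈ X, ∀ d ∈ X, ∀ (h : a ≠ b) (h' : c ≠ d), ρ (s2 a b c d h h') ξ = ξ

/-- the coinduced module -/
def Co (ρ : FAlt →* Module.End ℂ V) : Submodule ℂ (Perm ℕ → V) where
  carrier := {f | ∀ (a : FAlt) (g : Perm ℕ), f (a * g) = ρ a (f g)}
  add_mem' := by
    intro x y hx hy a g
    rw [Pi.add_apply, Pi.add_apply, hx a g, hy a g, map_add]
  zero_mem' := by intro a g; simp
  smul_mem' := by
    intro c x hx a g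
    rw [Pi.smul_apply, Pi.smul_apply, hx a g, map_smul]

/-- right translation -/
def coRep : Perm ℕ →* Module.End ℂ (Perm ℕ → V) where
  toFun h :=
    { toFun := fun f g => f (g * h)
      map_add' := by intro x y; rfl
      map_smul' := by intro c x; rfl }
  map_one' := by ext f g; simp
  map_mul' := by
    intro x y
    ext f g
    simp [mul_assoc]

lemma coRep_apply (h : Perm ℕ) (f : Perm ℕ → V) (g : Perm ℕ) : coRep h f g = f (g * h) := rfl

lemma co_even {ρ : FAlt →* Module.End ℂ V} {f : Perm ℕ → V} (hf : f ∈ Co ρ) {X : Finset ℕ}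
    (hX : ∀ a ∈ X, ∀ b ∈ X, ∀ c ∈ X, ∀ d ∈ X, a ≠ b → c ≠ d → ∀ g,
      f (g * (swap a b * swap c d)) = f g) (g : Perm ℕ) :
    EvenInv ρ (X.image g) (f g) := by
  intro a' ha' b' hb' c' hc' d' hd' hab hcd
  obtain ⟨a, ha, rfl⟩ := Finset.mem_image.mp ha'
  obtain ⟨b, hb, rfl⟩ := Finset.mem_image.mp hb'
  obtain ⟨c, hc, rfl⟩ := Finset.mem_image.mp hc'
  obtain ⟨d, hd, rfl⟩ := Finset.mem_image.mp hd'
  rw [← hf]
  have e : ((s2 (g a) (g b) (g c) (g d) hab hcd : FAlt) : Perm ℕ) * g
      = g * (swap a b * swap c d) := by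
    change swap (g a) (g b) * swap (g c) (g d) * g = g * (swap a b * swap c d)
    rw [mul_assoc, ← mul_swap_eq_swap_mul, ← mul_assoc, ← mul_swap_eq_swap_mul, mul_assoc]
  rw [e]
  exact hX a ha b hb c hc d hd (fun e => hab (by rw [e])) (fun e => hcd (by rw [e])) g

/-- A nonzero representation of the finitary alternating group has, for every `n`, nonzero vectors
which are invariant under the even permutations of some set with `n` elements. -/
theorem exists_evenInv (ρ : FAlt →* Module.End ℂ V) (hV : ∃ v : V, v ≠ 0) (n : ℕ) :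
    ∃ X : Finset ℕ, X.card = n ∧ ∃ ξ : V, ξ ≠ 0 ∧ EvenInv ρ X ξ := by
  by_contra hcon
  push Not at hcon
  have hne : Co ρ ≠ ⊥ := by
    obtain ⟨v, hv⟩ := hV
    classical
    rw [Submodule.ne_bot_iff]
    refine ⟨fun g => if h : g ∈ FAlt then ρ ⟨g, h⟩ v else 0, ?_, ?_⟩
    · intro a g
      by_cases hg : g ∈ FAlt
      · have hag : (a : Perm ℕ) * g ∈ FAlt := mul_mem a.2 hg
        simp only [hg, hag, dif_pos]
        rw [← Module.End.mul_apply, ← map_mul]
        rfl
      · have hag : (a : Perm ℕ) * g ∉ FAlt := by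
          intro h
          apply hg
          have := mul_mem (inv_mem a.2) h
          rwa [inv_mul_cancel_left] at this
        simp only [hg, hag, dif_neg, not_false_eq_true, map_zero]
    · intro h0
      have := congrFun h0 1
      simp only [one_mem, dif_pos] at this
      apply hv
      have h1 : (⟨1, one_mem _⟩ : FAlt) = 1 := rfl
      rw [h1, map_one] at this
      exact this
  have hinv : ∀ a b, a ≠ b → a ∉ (∅ : Finset ℕ) → b ∉ (∅ : Finset ℕ) → ∀ ξ ∈ Co ρ,
      (fun a b => coRep (V := V) (swap a b)) a b ξ ∈ Co ρ := by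
    intro a b _ _ _ ξ hξ c g
    change ξ (c * g * swap a b) = ρ c (ξ (g * swap a b))
    rw [mul_assoc, hξ]
  have hno : ∀ X : Finset ℕ, Disjoint X (∅ : Finset ℕ) → X.card = n → ∀ ξ ∈ Co ρ,
        SymT (fun a b => -((fun a b => coRep (V := V) (swap a b)) a b)) X ξ → ξ = 0 := by
    intro X _ hX f hf hs
    have h1 : ∀ a ∈ X, ∀ b ∈ X, a ≠ b → ∀ g, f (g * swap a b) = - f g := by
      intro a ha b hb hab g
      have := congrFun (hs a ha b hb hab) g
      simp only [LinearMap.neg_apply, Pi.neg_apply, coRep_apply] at this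
      rw [← this, neg_neg]
    funext g
    have h2 := co_even hf (X := X) (fun a ha b hb c hc d hd hab hcd g => by
      rw [← mul_assoc, h1 c hc d hd hcd, h1 a ha b hb hab, neg_neg]) g
    by_contra hg
    exact hcon (X.image g) (by rw [Finset.card_image_of_injective _ g.injective, hX]) (f g) hg h2
  obtain ⟨X, _, hX, f, hf, hf0, hs⟩ := claim (swapSys_perm (coRep (V := V))) n ∅ (Co ρ) hne
    hinv hno n
  have h1 : ∀ a ∈ X, ∀ b ∈ X, a ≠ b → ∀ g, f (g * swap a b) = f g := by
    intro a ha b hb hab g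
    exact congrFun (hs a ha b hb hab) g
  apply hf0
  funext g
  have h2 := co_even hf (X := X) (fun a ha b hb c hc d hd hab hcd g => by
      rw [← mul_assoc, h1 c hc d hd hcd, h1 a ha b hb hab]) g
  by_contra hg
  exact hcon (X.image g) (by rw [Finset.card_image_of_injective _ g.injective, hX]) (f g) hg h2

/-- the even permutations of the first `n` letters -/
def KA (n : ℕ) : Subgroup FAlt :=
  Subgroup.closure {g | ∃ (a b c d : ℕ) (h : a ≠ b) (h' : c ≠ d), a < n ∧ b < n ∧ c < n ∧ d < n ∧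
    g = s2 a b c d h h'}

lemma KA_mono {m n : ℕ} (h : m ≤ n) : KA m ≤ KA n := by
  apply Subgroup.closure_mono
  rintro g ⟨a, b, c, d, h1, h2, ha, hb, hc, hd, rfl⟩
  exact ⟨a, b, c, d, h1, h2, by omega, by omega, by omega, by omega, rfl⟩

lemma KA_fix {n : ℕ} {g : FAlt} (hg : g ∈ KA n) : ∀ x, n ≤ x → (g : Perm ℕ) x = x := by
  refine Subgroup.closure_induction (p := fun (g : FAlt) _ => ∀ x, n ≤ x → (g : Perm ℕ) x = x)
    ?_ ?_ ?_ ?_ hg
  · rintro g ⟨a, b, c, d, h1, h2, ha, hb, hc, hd, rfl⟩ x hx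
    change (swap a b * swap c d) x = x
    have e1 : swap c d x = x := swap_apply_of_ne_of_ne (by omega) (by omega)
    rw [Perm.mul_apply, e1, swap_apply_of_ne_of_ne (by omega) (by omega)]
  · intro x _; rfl
  · intro x y _ _ hx hy z hz
    change (x : Perm ℕ) ((y : Perm ℕ) z) = z
    rw [hy z hz, hx z hz]
  · intro x _ hx z hz
    change ((x : Perm ℕ)⁻¹) z = z
    rw [Perm.inv_eq_iff_eq, hx z hz]

lemma KA_finite (n : ℕ) : Finite (KA n) := by
  have hb : ∀ (g : KA n) (i : ℕ), i < n → ((g : FAlt) : Perm ℕ) i < n := by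
    intro g i hi
    by_contra hcon
    push Not at hcon
    have := KA_fix g.2 _ hcon
    have h2 := ((g : FAlt) : Perm ℕ).injective this
    omega
  let F : KA n → (Fin n → Fin n) := fun g i => ⟨((g : FAlt) : Perm ℕ) i, hb g i i.2⟩
  refine Finite.of_injective F ?_
  intro g h hgh
  apply Subtype.ext
  apply Subtype.ext
  ext x
  by_cases hx : x < n
  · have := congrFun hgh ⟨x, hx⟩
    exact congrArg Fin.val this
  · push Not at hx
    rw [KA_fix g.2 x hx, KA_fix h.2 x hx]

lemma KA_exists (g : FAlt) : ∃ n, g ∈ KA n := by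
  obtain ⟨g, hg⟩ := g
  refine Subgroup.closure_induction (p := fun g hg => ∃ n, (⟨g, hg⟩ : FAlt) ∈ KA n)
    ?_ ?_ ?_ ?_ hg
  · rintro g ⟨a, b, c, d, h1, h2, rfl⟩
    refine ⟨a + b + c + d + 1, Subgroup.subset_closure ⟨a, b, c, d, h1, h2, by omega, by omega,
      by omega, by omega, rfl⟩⟩
  · exact ⟨0, one_mem _⟩
  · rintro x y hx hy ⟨m, hm⟩ ⟨n, hn⟩
    exact ⟨max m n, mul_mem (KA_mono (le_max_left _ _) hm) (KA_mono (le_max_right _ _) hn)⟩
  · rintro x hx ⟨m, hm⟩
    exact ⟨m, inv_mem hm⟩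

/-- vectors invariant under the even permutations of the first `n` letters -/
lemma evenInv_conj {ρ : FAlt →* Module.End ℂ V} {n : ℕ} {X : Finset ℕ} (hX : X.card = n)
    {ξ : V} (hξ : EvenInv ρ X ξ) : ∃ h : FAlt, ∀ k ∈ KA n, ρ k (ρ h ξ) = ρ h ξ := by
  obtain ⟨h, hh, hm⟩ := falt_move X
  rw [hX] at hm
  refine ⟨⟨h, hh⟩⁻¹, ?_⟩
  intro k hk
  refine Subgroup.closure_induction (p := fun k _ => ρ k (ρ (⟨h, hh⟩⁻¹) ξ) = ρ (⟨h, hh⟩⁻¹) ξ)
    ?_ ?_ ?_ ?_ hk
  · rintro k ⟨a, b, c, d, hab, hcd, ha, hb, hc, hd, rfl⟩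
    have e : s2 a b c d hab hcd * (⟨h, hh⟩ : FAlt)⁻¹ = (⟨h, hh⟩ : FAlt)⁻¹ *
        s2 (h a) (h b) (h c) (h d) (h.injective.ne hab) (h.injective.ne hcd) := by
      rw [mul_inv_eq_iff_eq_mul, mul_assoc, eq_inv_mul_iff_mul_eq]
      apply Subtype.ext
      change h * (swap a b * swap c d) = swap (h a) (h b) * swap (h c) (h d) * h
      rw [← mul_assoc, mul_swap_eq_swap_mul h a b, mul_assoc, mul_swap_eq_swap_mul h c d,
        mul_assoc]
    rw [← Module.End.mul_apply, ← map_mul, e, map_mul, Module.End.mul_apply,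
      hξ _ (hm a ha) _ (hm b hb) _ (hm c hc) _ (hm d hd)]
  · rw [map_one]; rfl
  · intro x y _ _ hx hy
    rw [map_mul, Module.End.mul_apply, hy, hx]
  · intro x _ hx
    conv_lhs => rw [← hx]
    rw [← Module.End.mul_apply, ← map_mul, inv_mul_cancel, map_one]; rfl

/-- A nonzero representation of the finitary alternating group has, for every `n`, nonzero vectors
invariant under the even permutations of the first `n` letters. -/
theorem exists_KA_inv (ρ : FAlt →* Module.End ℂ V) (hV : ∃ v : V, v ≠ 0) (n : ℕ) :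
    ∃ ξ : V, ξ ≠ 0 ∧ ∀ k ∈ KA n, ρ k ξ = ξ := by
  obtain ⟨X, hX, ξ, hξ0, hξ⟩ := exists_evenInv ρ hV n
  obtain ⟨h, hh⟩ := evenInv_conj hX hξ
  refine ⟨ρ h ξ, ?_, hh⟩
  intro h0
  apply hξ0
  have : ρ h⁻¹ (ρ h ξ) = ξ := by
    rw [← Module.End.mul_apply, ← map_mul, inv_mul_cancel, map_one]; rfl
  rw [← this, h0, map_zero]

end Pool.Agent.H516R3.Alt
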