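import Pool.Agent.H516R3.Alt.T2

set_option autoImplicit false
set_option linter.all false

/-! Ideals of the full group C*-algebra of the finitary alternating group. -/

namespace Pool.Agent.H516R3.Alt

open Equiv

noncomputable section

/-- `A`, with the unitary representation `u` of the discrete group `G`, is the full group
C*-algebra of `G`: the linear span of `u(G)` is dense, and every unitary representation of `G` in a
unital C*-algebra factors through `u`. -/
structure IsFullGroupCStar (G : Type) [Group G] (A : Type) [CStarAlgebra A]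
    (u : G →* unitary A) : Prop where
  dense : closure (Submodule.span ℂ (Set.range fun g : G => (u g : A)) : Set A) = Set.univ
  univ : ∀ (B : Type) [CStarAlgebra B] (v : G →* unitary B),
    ∃ φ : A →⋆ₐ[ℂ] B, ∀ g : G, φ (u g) = v g

instance (n : ℕ) : Finite (KA n) := KA_finite n
instance (n : ℕ) : Fintype (KA n) := Fintype.ofFinite _

variable {A : Type} [CStarAlgebra A]

/-- the average over the even permutations of the first `n` letters -/
def av (u : FAlt →* unitary A) (n : ℕ) : A :=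
  ((Fintype.card (KA n) : ℂ)⁻¹) • ∑ k : KA n, (u (k : FAlt) : A)

lemma card_ne (n : ℕ) : (Fintype.card (KA n) : ℂ) ≠ 0 := by
  exact_mod_cast Fintype.card_ne_zero

variable (u : FAlt →* unitary A)

lemma av_mul_u {n : ℕ} {g : FAlt} (hg : g ∈ KA n) : av u n * (u g : A) = av u n := by
  unfold av
  rw [smul_mul_assoc, Finset.sum_mul]
  congr 1
  refine Fintype.sum_equiv (Equiv.mulRight (⟨g, hg⟩ : KA n)) _ _ fun k => ?_
  rw [← Submonoid.coe_mul, ← map_mul]
  rfl

lemma u_mul_av {n : ℕ} {g : FAlt} (hg : g ∈ KA n) : (u g : A) * av u n = av u n := by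
  unfold av
  rw [mul_smul_comm, Finset.mul_sum]
  congr 1
  refine Fintype.sum_equiv (Equiv.mulLeft (⟨g, hg⟩ : KA n)) _ _ fun k => ?_
  rw [← Submonoid.coe_mul, ← map_mul]
  rfl

lemma av_mul_av (n : ℕ) : av u n * av u n = av u n := by
  conv_lhs => arg 2; unfold av
  rw [mul_smul_comm, Finset.mul_sum]
  have : ∀ k ∈ (Finset.univ : Finset (KA n)), av u n * (u (k : FAlt) : A) = av u n :=
    fun k _ => av_mul_u u k.2
  rw [Finset.sum_congr rfl this, Finset.sum_const, Finset.card_univ, ← Nat.cast_smul_eq_nsmul ℂ,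
    smul_smul, inv_mul_cancel₀ (card_ne n), one_smul]

lemma u_norm_le (g : FAlt) : ‖(u g : A)‖ ≤ 1 := by
  rcases subsingleton_or_nontrivial A with h | h
  · rw [Subsingleton.elim (u g : A) 0, norm_zero]; exact zero_le_one
  · exact (CStarRing.norm_coe_unitary (u g)).le

lemma av_norm_le (n : ℕ) : ‖av u n‖ ≤ 1 := by
  unfold av
  rw [norm_smul, norm_inv, Complex.norm_natCast]
  have h1 : ‖∑ k : KA n, (u (k : FAlt) : A)‖ ≤ Fintype.card (KA n) := by
    refine (norm_sum_le _ _).trans ?_
    have h0 : ∑ k : KA n, ‖(u (k : FAlt) : A)‖ ≤ ∑ k : KA n, (1 : ℝ) :=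
      Finset.sum_le_sum fun (k : KA n) _ => u_norm_le u (k : FAlt)
    refine h0.trans ?_
    simp
  have h2 : (0 : ℝ) < Fintype.card (KA n) := by exact_mod_cast Fintype.card_pos
  calc (Fintype.card (KA n) : ℝ)⁻¹ * ‖∑ k : KA n, (u (k : FAlt) : A)‖
      ≤ (Fintype.card (KA n) : ℝ)⁻¹ * Fintype.card (KA n) := by gcongr
    _ = 1 := inv_mul_cancel₀ h2.ne'

variable {u} (ε : A →⋆ₐ[ℂ] ℂ) (hε : ∀ g, ε (u g) = 1)
include hε

lemma ev_span {a : A} (ha : a ∈ Submodule.span ℂ (Set.range fun g : FAlt => (u g : A))) :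
    ∃ N, ∀ n, N ≤ n → av u n * a * av u n = ε a • av u n := by
  induction ha using Submodule.span_induction with
  | mem x hx =>
    obtain ⟨g, rfl⟩ := hx
    obtain ⟨N, hN⟩ := KA_exists g
    refine ⟨N, fun n hn => ?_⟩
    rw [av_mul_u u (KA_mono hn hN), av_mul_av, hε, one_smul]
  | zero => exact ⟨0, fun n _ => by simp⟩
  | add x y _ _ hx hy =>
    obtain ⟨M, hM⟩ := hx
    obtain ⟨N, hN⟩ := hy
    refine ⟨max M N, fun n hn => ?_⟩
    rw [mul_add, add_mul, hM n (le_trans (le_max_left _ _) hn),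
      hN n (le_trans (le_max_right _ _) hn), map_add, add_smul]
  | smul c x _ hx =>
    obtain ⟨N, hN⟩ := hx
    refine ⟨N, fun n hn => ?_⟩
    rw [mul_smul_comm, smul_mul_assoc, hN n hn, map_smul, smul_smul]
    rfl

lemma ev_approx (hd : closure (Submodule.span ℂ (Set.range fun g : FAlt => (u g : A)) : Set A)
    = Set.univ) (a : A) :
    ∃ n, ‖av u n * a * av u n - ε a • av u n‖ < 1 := by
  have ha : a ∈ closure (Submodule.span ℂ (Set.range fun g : FAlt => (u g : A)) : Set A) := by
    rw [hd]; trivial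
  rw [Metric.mem_closure_iff] at ha
  obtain ⟨b, hb, hab⟩ := ha (1 / 2) (by norm_num)
  obtain ⟨N, hN⟩ := ev_span ε hε hb
  refine ⟨N, ?_⟩
  have e : av u N * a * av u N - ε a • av u N =
      av u N * (a - b) * av u N - ε (a - b) • av u N := by
    rw [mul_sub, sub_mul, hN N le_rfl, map_sub, sub_smul]
    abel
  rw [e]
  have h1 : ‖a - b‖ < 1 / 2 := by rwa [← dist_eq_norm]
  have h2 : ‖ε (a - b)‖ ≤ ‖a - b‖ := NonUnitalStarAlgHom.norm_apply_le ε (a - b)
  have h3 := av_norm_le u N
  calc ‖av u N * (a - b) * av u N - ε (a - b) • av u N‖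
      ≤ ‖av u N * (a - b) * av u N‖ + ‖ε (a - b) • av u N‖ := norm_sub_le _ _
    _ ≤ ‖a - b‖ + ‖a - b‖ := by
        refine add_le_add ?_ ?_
        · calc ‖av u N * (a - b) * av u N‖ ≤ ‖av u N * (a - b)‖ * ‖av u N‖ := norm_mul_le _ _
            _ ≤ (‖av u N‖ * ‖a - b‖) * ‖av u N‖ := by gcongr; exact norm_mul_le _ _
            _ ≤ (1 * ‖a - b‖) * 1 := by gcongr
            _ = ‖a - b‖ := by ring
        · rw [norm_smul]
          calc ‖ε (a - b)‖ * ‖av u N‖ ≤ ‖a - b‖ * 1 := by gcongr
            _ = ‖a - b‖ := mul_one _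
    _ < 1 := by linarith

lemma av_mem (hd : closure (Submodule.span ℂ (Set.range fun g : FAlt => (u g : A)) : Set A)
    = Set.univ) (J : TwoSidedIdeal A) {a : A} (ha : a ∈ J) (h1 : ε a = 1) :
    ∃ n, av u n ∈ J := by
  obtain ⟨n, hn⟩ := ev_approx ε hε hd a
  rw [h1, one_smul] at hn
  refine ⟨n, ?_⟩
  set p := av u n with hp
  have hpp : p * p = p := av_mul_av u n
  have hx : IsUnit (1 - (p - p * a * p)) := by
    refine isUnit_one_sub_of_norm_lt_one ?_
    rw [← norm_neg, neg_sub]; exact hn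
  obtain ⟨x, hx⟩ := hx
  have hpx : p * (x : A) = p * a * p := by
    rw [hx, mul_sub, mul_one, mul_sub, hpp, ← mul_assoc, ← mul_assoc, hpp]
    abel
  have h2 : p * a * p ∈ J := J.mul_mem_right _ _ (J.mul_mem_left _ _ ha)
  have h3 : p = p * a * p * ((x⁻¹ : Aˣ) : A) := by
    rw [← hpx, mul_assoc, Units.mul_inv, mul_one]
  rw [h3]
  exact J.mul_mem_right _ _ h2

omit hε

/-- the linear subspace underlying an ideal -/
def subm (J : TwoSidedIdeal A) : Submodule ℂ A where
  carrier := {a | a ∈ J}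
  add_mem' := fun ha hb => J.add_mem ha hb
  zero_mem' := J.zero_mem
  smul_mem' := by
    intro c x hx
    change c • x ∈ J
    rw [← one_mul x, ← smul_mul_assoc]
    exact J.mul_mem_left _ _ hx

lemma mem_subm {J : TwoSidedIdeal A} {a : A} : a ∈ subm J ↔ a ∈ J := Iff.rfl

/-- left multiplication on the quotient by an ideal -/
def quotRep (u : FAlt →* unitary A) (J : TwoSidedIdeal A) :
    FAlt →* Module.End ℂ (A ⧸ subm J) where
  toFun g := (subm J).mapQ (subm J) (LinearMap.mulLeft ℂ (u g : A)) (by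
    intro x hx
    exact J.mul_mem_left _ _ hx)
  map_one' := by
    ext x
    simp
  map_mul' := by
    intro g h
    ext x
    simp [mul_assoc] <;> rfl

lemma quotRep_mk (J : TwoSidedIdeal A) (g : FAlt) (b : A) :
    quotRep u J g (Submodule.Quotient.mk b) = Submodule.Quotient.mk ((u g : A) * b) := rfl

include hε

/-- every proper ideal lies in the augmentation ideal -/
theorem ideal_le (hd : closure (Submodule.span ℂ (Set.range fun g : FAlt => (u g : A)) : Set A)
    = Set.univ) (J : TwoSidedIdeal A) (hJ : (1 : A) ∉ J) : ∀ a ∈ J, ε a = 0 := by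
  intro a ha
  by_contra hne
  have ha' : (ε a)⁻¹ • a ∈ J := (subm J).smul_mem _ ha
  obtain ⟨n, hn⟩ := av_mem ε hε hd J ha' (by
    rw [map_smul, smul_eq_mul, inv_mul_cancel₀ hne])
  obtain ⟨ξ, hξ0, hξ⟩ := exists_KA_inv (quotRep u J)
    ⟨Submodule.Quotient.mk 1, by
      intro h0
      rw [Submodule.Quotient.mk_eq_zero] at h0
      exact hJ h0⟩ n
  obtain ⟨b, rfl⟩ := Submodule.Quotient.mk_surjective _ ξ
  apply hξ0
  rw [Submodule.Quotient.mk_eq_zero]
  have h1 : ∀ k : KA n, (u (k : FAlt) : A) * b - b ∈ subm J := by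
    intro k
    have := hξ k k.2
    rw [quotRep_mk, Submodule.Quotient.eq] at this
    exact this
  have h2 : av u n * b - b ∈ subm J := by
    have e : av u n * b - b = ((Fintype.card (KA n) : ℂ)⁻¹) •
        ∑ k : KA n, ((u (k : FAlt) : A) * b - b) := by
      rw [Finset.sum_sub_distrib, Finset.sum_const, Finset.card_univ, smul_sub,
        ← Nat.cast_smul_eq_nsmul ℂ, smul_smul, inv_mul_cancel₀ (card_ne n), one_smul]
      congr 1
      unfold av
      rw [smul_mul_assoc, Finset.sum_mul]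
    rw [e]
    exact (subm J).smul_mem _ ((subm J).sum_mem fun k _ => h1 k)
  have h3 : av u n * b ∈ subm J := J.mul_mem_right _ _ hn
  have h4 := (subm J).sub_mem h3 h2
  rwa [sub_sub_cancel] at h4

end

end Pool.Agent.H516R3.Alt
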