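import Pool.Agent.H516R3.Alt.T2

set_option autoImplicit false
set_option linter.all false

/-! The permutation representation on `ℓ²(ℕ)`. -/

namespace Pool.Agent.H516R3.Alt

open Equiv Filter Topology

noncomputable section

/-- `ℓ²(α)` -/
abbrev L2 (α : Type) : Type := lp (fun _ : α => ℂ) 2

variable {α : Type}

lemma memlp_pm (e : Perm α) (f : L2 α) :
    Memℓp (E := fun _ : α => ℂ) (fun b => f (e.symm b)) 2 := by
  have h := lp.memℓp f
  rw [memℓp_gen_iff (by norm_num)] at h ⊢
  exact (e.symm.summable_iff (f := fun i => ‖f i‖ ^ (2 : ENNReal).toReal)).2 h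

/-- the permutation operator, `(pm e f) b = f (e⁻¹ b)` -/
def pm (e : Perm α) : L2 α ≃ₗᵢ[ℂ] L2 α where
  toFun f := ⟨fun b => f (e.symm b), memlp_pm e f⟩
  invFun f := ⟨fun a => f (e a), memlp_pm e.symm f⟩
  map_add' f g := by ext b; rfl
  map_smul' c f := by ext b; rfl
  left_inv f := by ext a; simp
  right_inv f := by ext a; simp
  norm_map' f := by
    rw [lp.norm_eq_tsum_rpow (by norm_num), lp.norm_eq_tsum_rpow (by norm_num)]
    congr 1
    exact e.symm.tsum_eq (fun i => ‖f i‖ ^ (2 : ENNReal).toReal)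

lemma pm_apply (e : Perm α) (f : L2 α) (b : α) : pm e f b = f (e.symm b) := rfl

/-- the permutation representation -/
def permU : Perm α →* unitary (L2 α →L[ℂ] L2 α) where
  toFun e := Unitary.linearIsometryEquiv.symm (pm e)
  map_one' := by
    rw [← map_one (Unitary.linearIsometryEquiv (𝕜 := ℂ) (H := L2 α)).symm]
    congr 1
  map_mul' e f := by
    rw [← map_mul]
    congr 1

lemma permU_apply (e : Perm α) (f : L2 α) (b : α) :
    (permU e : L2 α →L[ℂ] L2 α) f b = f (e.symm b) := rfl

/-- point masses -/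
def dl [DecidableEq α] (i : α) : L2 α := lp.single 2 i (1 : ℂ)

lemma dl_self [DecidableEq α] (i : α) : dl i i = 1 := by
  unfold dl; rw [lp.single_apply_self]

lemma dl_ne [DecidableEq α] {i j : α} (h : j ≠ i) : dl i j = 0 := by
  unfold dl; rw [lp.single_apply_ne _ _ _ h]

lemma permU_dl [DecidableEq α] (e : Perm α) (i : α) :
    (permU e : L2 α →L[ℂ] L2 α) (dl i) = dl (e i) := by
  ext b
  rw [permU_apply]
  by_cases h : b = e i
  · subst h
    rw [Equiv.symm_apply_apply, dl_self, dl_self]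
  · rw [dl_ne h, dl_ne]
    intro h'
    exact h (by rw [← h', Equiv.apply_symm_apply])

/-- an operator commuting with the even permutations is a scalar -/
theorem comm_scalar (T : L2 ℕ →L[ℂ] L2 ℕ)
    (hT : ∀ g : FAlt, T * (permU (g : Perm ℕ) : L2 ℕ →L[ℂ] L2 ℕ)
      = (permU (g : Perm ℕ) : L2 ℕ →L[ℂ] L2 ℕ) * T) :
    ∃ c : ℂ, T = c • 1 := by
  set t : ℕ → ℕ → ℂ := fun i j => T (dl i) j with ht
  have h1 : ∀ (g : FAlt) (i j : ℕ), t ((g : Perm ℕ) i) ((g : Perm ℕ) j) = t i j := by
    intro g i j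
    have h := DFunLike.congr_fun (hT g) (dl i)
    rw [ContinuousLinearMap.mul_apply, ContinuousLinearMap.mul_apply, permU_dl] at h
    simp only [ht]
    rw [h, permU_apply, Equiv.symm_apply_apply]
  -- off diagonal constant
  have h2 : ∀ i j k, j ≠ i → k ≠ i → t i j = t i k := by
    intro i j k hj hk
    by_cases hjk : j = k
    · rw [hjk]
    obtain ⟨l, hl⟩ := Infinite.exists_notMem_finset ({i, j, k} : Finset ℕ)
    simp only [Finset.mem_insert, Finset.mem_singleton, not_or] at hl
    obtain ⟨hli, hlj, hlk⟩ := hl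
    have h := h1 (s2 j k k l hjk (Ne.symm hlk)) i j
    have e1 : ((s2 j k k l hjk (Ne.symm hlk) : FAlt) : Perm ℕ) i = i := by
      change swap j k (swap k l i) = i
      rw [swap_apply_of_ne_of_ne hk.symm (Ne.symm hli), swap_apply_of_ne_of_ne hj.symm hk.symm]
    have e2 : ((s2 j k k l hjk (Ne.symm hlk) : FAlt) : Perm ℕ) j = k := by
      change swap j k (swap k l j) = k
      rw [swap_apply_of_ne_of_ne hjk (Ne.symm hlj), swap_apply_left]
    rw [e1, e2] at h
    exact h.symm
  have h3 : ∀ i j, j ≠ i → t i j = 0 := by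
    intro i j hj
    have hs : Summable fun k => ‖t i k‖ ^ 2 := by
      have h := (memℓp_gen_iff (p := 2) (by norm_num) (f := fun a => T (dl i) a)).mp
        (lp.memℓp (T (dl i)))
      simpa using h
    have hlim := hs.tendsto_atTop_zero
    have hc : Tendsto (fun k => ‖t i k‖ ^ 2) atTop (𝓝 (‖t i j‖ ^ 2)) := by
      refine tendsto_const_nhds.congr' ?_
      filter_upwards [eventually_gt_atTop i] with k hk
      rw [h2 i j k hj (by omega)]
    have := tendsto_nhds_unique hc hlim
    simpa using this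
  have h4 : ∀ i, t i i = t 0 0 := by
    intro i
    by_cases hi : i = 0
    · rw [hi]
    have h := h1 (s2 0 i (i + 1) (i + 2) (Ne.symm hi) (by omega)) 0 0
    have e1 : ((s2 0 i (i + 1) (i + 2) (Ne.symm hi) (by omega) : FAlt) : Perm ℕ) 0 = i := by
      change swap 0 i (swap (i + 1) (i + 2) 0) = i
      have e2 : swap (i + 1) (i + 2) 0 = 0 := swap_apply_of_ne_of_ne (by omega) (by omega)
      rw [e2, swap_apply_left]
    rw [e1] at h
    exact h
  refine ⟨t 0 0, ?_⟩
  have h5 : ∀ i, T (dl i) = t 0 0 • dl i := by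
    intro i
    ext j
    by_cases hj : j = i
    · subst hj
      change t j j = t 0 0 * dl j j
      rw [dl_self, mul_one, h4]
    · change t i j = t 0 0 * dl i j
      rw [dl_ne hj, mul_zero, h3 i j hj]
  refine ContinuousLinearMap.ext fun x => ?_
  have hx := lp.hasSum_single (E := fun _ : ℕ => ℂ) (p := 2) (by norm_num) x
  have hT1 := hx.map T T.continuous
  have hT2 := hx.map ((t 0 0) • (1 : L2 ℕ →L[ℂ] L2 ℕ)) (ContinuousLinearMap.continuous _)
  refine hT1.unique (hT2.congr_fun ?_)
  intro i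
  have e : (lp.single 2 i (x i) : L2 ℕ) = x i • dl i := by
    unfold dl
    rw [← lp.single_smul]
    simp
  simp only [Function.comp_apply]
  rw [e, map_smul, map_smul, h5]
  rfl

/-- the permutation representation is irreducible -/
theorem perm_irred (K : Submodule ℂ (L2 ℕ)) (hK : IsClosed (K : Set (L2 ℕ)))
    (hinv : ∀ g : FAlt, ∀ x ∈ K, (permU (g : Perm ℕ) : L2 ℕ →L[ℂ] L2 ℕ) x ∈ K) :
    K = ⊥ ∨ K = ⊤ := by
  haveI : CompleteSpace K := hK.completeSpace_coe
  have hcomm : ∀ g : FAlt, K.starProjection * (permU (g : Perm ℕ) : L2 ℕ →L[ℂ] L2 ℕ)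
      = (permU (g : Perm ℕ) : L2 ℕ →L[ℂ] L2 ℕ) * K.starProjection := by
    intro g
    refine ContinuousLinearMap.ext fun x => ?_
    rw [ContinuousLinearMap.mul_apply, ContinuousLinearMap.mul_apply]
    refine Submodule.eq_starProjection_of_mem_orthogonal
      (hinv g _ (K.starProjection_apply_mem x)) ?_
    rw [← map_sub, Submodule.mem_orthogonal]
    intro y hy
    have h1 : y = (permU (g : Perm ℕ) : L2 ℕ →L[ℂ] L2 ℕ)
        ((permU ((g⁻¹ : FAlt) : Perm ℕ) : L2 ℕ →L[ℂ] L2 ℕ) y) := by
      rw [← ContinuousLinearMap.mul_apply, ← Submonoid.coe_mul, ← map_mul]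
      have : (g : Perm ℕ) * ((g⁻¹ : FAlt) : Perm ℕ) = 1 := by simp
      rw [this, map_one]
      rfl
    rw [h1, Unitary.inner_map_map]
    exact (Submodule.mem_orthogonal _ _).mp (K.sub_starProjection_mem_orthogonal x) _
      (hinv g⁻¹ y hy)
  obtain ⟨c, hc⟩ := comm_scalar K.starProjection hcomm
  by_cases hK0 : K = ⊥
  · exact Or.inl hK0
  right
  obtain ⟨x, hx, hx0⟩ := (Submodule.ne_bot_iff K).mp hK0
  have h1 : K.starProjection x = x := Submodule.starProjection_eq_self_iff.mpr hx
  have h2 : c • x = x := by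
    rw [hc] at h1
    exact h1
  have h3 : c = 1 := by
    have : (c - 1) • x = 0 := by rw [sub_smul, one_smul, h2, sub_self]
    rcases smul_eq_zero.mp this with h | h
    · exact sub_eq_zero.mp h
    · exact absurd h hx0
  rw [eq_top_iff]
  intro y _
  have h4 : K.starProjection y = y := by
    rw [hc, h3, one_smul]; rfl
  exact Submodule.starProjection_eq_self_iff.mp h4

end

end Pool.Agent.H516R3.Alt
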