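import Pool.Agent.H516R3.Alt.T3
import Pool.Agent.H516R3.Alt.T4

set_option autoImplicit false
set_option linter.all false

/-! Existence of the full group C*-algebra of a locally finite group. -/

namespace Pool.Agent.H516R3.Alt

open Equiv Filter Topology MonoidAlgebra

noncomputable section

variable {G : Type} [Group G]

/-- the extension of a unitary representation to the group algebra -/
def gext {B : Type} [CStarAlgebra B] (v : G →* unitary B) : MonoidAlgebra ℂ G →ₐ[ℂ] B :=
  MonoidAlgebra.lift ℂ B G ((unitary B).subtype.comp v)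

lemma gext_single {B : Type} [CStarAlgebra B] (v : G →* unitary B) (g : G) (r : ℂ) :
    gext v (single g r) = r • (v g : B) := by
  unfold gext
  rw [MonoidAlgebra.lift_single]
  rfl

/-- left regular representation -/
def lamU : G →* unitary (L2 G →L[ℂ] L2 G) := permU.comp (MulAction.toPermHom G G)

lemma lamU_dl [DecidableEq G] (g h : G) :
    (lamU g : L2 G →L[ℂ] L2 G) (dl h) = dl (g * h) := permU_dl _ _

lemma gext_coeff [DecidableEq G] (x : MonoidAlgebra ℂ G) (g : G) :
    (gext lamU x : L2 G →L[ℂ] L2 G) (dl 1) g = x.coeff g := by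
  induction x using MonoidAlgebra.induction_linear with
  | zero => simp
  | add x y hx hy =>
    rw [map_add, ContinuousLinearMap.add_apply]
    change (gext lamU x : L2 G →L[ℂ] L2 G) (dl 1) g + (gext lamU y : L2 G →L[ℂ] L2 G) (dl 1) g = _
    rw [hx, hy]
    simp
  | single h r =>
    rw [gext_single, ContinuousLinearMap.smul_apply, lamU_dl, mul_one]
    change r * dl h g = _
    by_cases hg : g = h
    · subst hg; rw [dl_self]; simp
    · rw [dl_ne hg]
      simp [Finsupp.single_apply, Ne.symm hg]

lemma gext_lam_inj {x : MonoidAlgebra ℂ G} (h : (gext lamU x : L2 G →L[ℂ] L2 G) = 0) : x = 0 := by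
  classical
  ext g
  have := gext_coeff x g
  rw [h] at this
  rw [← this]
  simp

lemma exists_adj (x : MonoidAlgebra ℂ G) : ∃ y : MonoidAlgebra ℂ G,
    ∀ (B : Type) [CStarAlgebra B] (v : G →* unitary B), star (gext v x) = gext v y := by
  induction x using MonoidAlgebra.induction_linear with
  | zero => exact ⟨0, fun B _ v => by simp⟩
  | add x y hx hy =>
    obtain ⟨x', hx'⟩ := hx
    obtain ⟨y', hy'⟩ := hy
    exact ⟨x' + y', fun B _ v => by rw [map_add, star_add, hx', hy', map_add]⟩
  | single g r =>
    refine ⟨single g⁻¹ (starRingEnd ℂ r), fun B _ v => ?_⟩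
    rw [gext_single, gext_single, star_smul, map_inv]
    rfl

/-- the group algebras of finite subgroups -/
def subA (K : Subgroup G) : Subalgebra ℂ (MonoidAlgebra ℂ G) :=
  (mapDomainAlgHom ℂ ℂ K.subtype).range

instance (K : Subgroup G) [Finite K] : Module.Finite ℂ (subA K) := by
  unfold subA
  haveI : Module.Finite ℂ (MonoidAlgebra ℂ K) := inferInstance
  exact Module.Finite.range (mapDomainAlgHom ℂ ℂ K.subtype).toLinearMap

lemma single_mem_subA {K : Subgroup G} {g : G} (hg : g ∈ K) (r : ℂ) : single g r ∈ subA K := by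
  refine ⟨single ⟨g, hg⟩ r, ?_⟩
  simp

lemma mem_subA (K : ℕ → Subgroup G) (hK : ∀ m n, m ≤ n → K m ≤ K n) (hK' : ∀ g, ∃ n, g ∈ K n)
    (x : MonoidAlgebra ℂ G) : ∃ N, ∀ n, N ≤ n → x ∈ subA (K n) := by
  induction x using MonoidAlgebra.induction_linear with
  | zero => exact ⟨0, fun n _ => zero_mem _⟩
  | add x y hx hy =>
    obtain ⟨M, hM⟩ := hx
    obtain ⟨N, hN⟩ := hy
    exact ⟨max M N, fun n hn => add_mem (hM n (le_trans (le_max_left _ _) hn))
      (hN n (le_trans (le_max_right _ _) hn))⟩
  | single g r =>
    obtain ⟨N, hN⟩ := hK' g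
    exact ⟨N, fun n hn => single_mem_subA (hK N n hn hN) r⟩

/-- an element of a finite dimensional algebra with an injective representation is invertible as
soon as its image is -/
lemma unit_of_unit {R B : Type} [Ring R] [Algebra ℂ R] [Module.Finite ℂ R] [Ring B] [Algebra ℂ B]
    (f : R →ₐ[ℂ] B) (hf : ∀ x, f x = 0 → x = 0) {x : R} (hx : IsUnit (f x)) : IsUnit x := by
  have h1 : Function.Injective (LinearMap.mulLeft ℂ x) := by
    rw [injective_iff_map_eq_zero]
    intro y hy
    rw [LinearMap.mulLeft_apply] at hy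
    have := congrArg f hy
    rw [map_mul, map_zero] at this
    exact hf _ ((hx.mul_right_eq_zero).mp this)
  have h2 : Function.Injective (LinearMap.mulRight ℂ x) := by
    rw [injective_iff_map_eq_zero]
    intro y hy
    rw [LinearMap.mulRight_apply] at hy
    have := congrArg f hy
    rw [map_mul, map_zero] at this
    exact hf _ ((hx.mul_left_eq_zero).mp this)
  obtain ⟨y, hy⟩ := LinearMap.injective_iff_surjective.mp h1 1
  obtain ⟨z, hz⟩ := LinearMap.injective_iff_surjective.mp h2 1
  rw [LinearMap.mulLeft_apply] at hy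
  rw [LinearMap.mulRight_apply] at hz
  exact isUnit_iff_exists.mpr ⟨y, hy, by
    have : z = y := by
      calc z = z * (x * y) := by rw [hy, mul_one]
        _ = y := by rw [← mul_assoc, hz, one_mul]
    rw [← this]; exact hz⟩

lemma spec_subset {K : Subgroup G} [Finite K] {B : Type} [CStarAlgebra B] (v : G →* unitary B)
    {x : MonoidAlgebra ℂ G} (hx : x ∈ subA K) :
    spectrum ℂ (gext v x) ⊆ spectrum ℂ (gext lamU x : L2 G →L[ℂ] L2 G) := by
  intro z hz hz'
  apply hz
  let X : subA K := ⟨x, hx⟩
  let f : subA K →ₐ[ℂ] (L2 G →L[ℂ] L2 G) := (gext lamU).comp (subA K).val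
  let g : subA K →ₐ[ℂ] B := (gext v).comp (subA K).val
  have h1 : IsUnit (f (algebraMap ℂ (subA K) z - X)) := by
    rw [map_sub, AlgHom.commutes]
    exact hz'
  have h2 : IsUnit (algebraMap ℂ (subA K) z - X) := by
    refine unit_of_unit f ?_ h1
    intro y hy
    exact Subtype.ext (gext_lam_inj hy)
  have h3 := h2.map g
  rw [map_sub, AlgHom.commutes] at h3
  exact h3

instance : Nontrivial (L2 G →L[ℂ] L2 G) := by
  classical
  refine ⟨1, 0, fun h => ?_⟩
  have := congrArg (fun T : L2 G →L[ℂ] L2 G => T (dl 1) 1) h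
  simp only [ContinuousLinearMap.one_apply, ContinuousLinearMap.zero_apply] at this
  rw [dl_self] at this
  exact one_ne_zero this

/-- the norm in the regular representation of a locally finite group is the largest one -/
theorem gext_norm_le (K : ℕ → Subgroup G) (hfin : ∀ n, Finite (K n))
    (hK : ∀ m n, m ≤ n → K m ≤ K n) (hK' : ∀ g, ∃ n, g ∈ K n)
    {B : Type} [CStarAlgebra B] (v : G →* unitary B) (x : MonoidAlgebra ℂ G) :
    ‖gext v x‖ ≤ ‖(gext lamU x : L2 G →L[ℂ] L2 G)‖ := by
  obtain ⟨y, hy⟩ := exists_adj x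
  obtain ⟨N, hN⟩ := mem_subA K hK hK' (y * x)
  haveI := hfin N
  have h1 := spec_subset v (hN N le_rfl)
  have hsa : ∀ (B : Type) [CStarAlgebra B] (v : G →* unitary B),
      IsSelfAdjoint (gext v (y * x)) := by
    intro B _ v
    rw [map_mul, ← hy]
    exact IsSelfAdjoint.star_mul_self _
  have h2 : spectralRadius ℂ (gext v (y * x)) ≤
      spectralRadius ℂ (gext lamU (y * x) : L2 G →L[ℂ] L2 G) := by
    unfold spectralRadius
    exact biSup_mono fun z hz => h1 hz
  rw [(hsa B v).spectralRadius_eq_nnnorm, (hsa _ lamU).spectralRadius_eq_nnnorm] at h2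
  have h3 : ‖gext v (y * x)‖ ≤ ‖(gext lamU (y * x) : L2 G →L[ℂ] L2 G)‖ := by exact_mod_cast h2
  rw [map_mul, map_mul, ← hy, ← hy, CStarRing.norm_star_mul_self, CStarRing.norm_star_mul_self]
    at h3
  exact (mul_self_le_mul_self_iff (norm_nonneg _) (norm_nonneg _)).mpr h3

variable (G) in
/-- the group algebra in the regular representation -/
def redAlg0 : StarSubalgebra ℂ (L2 G →L[ℂ] L2 G) where
  toSubalgebra := (gext (lamU (G := G))).range
  star_mem' := by
    rintro _ ⟨x, rfl⟩
    obtain ⟨y, hy⟩ := exists_adj x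
    exact ⟨y, (hy _ lamU).symm⟩

variable (G) in
/-- the reduced group C*-algebra -/
def RedS : StarSubalgebra ℂ (L2 G →L[ℂ] L2 G) := (redAlg0 G).topologicalClosure

instance : IsClosed (RedS G : Set (L2 G →L[ℂ] L2 G)) :=
  StarSubalgebra.isClosed_topologicalClosure _

variable (G) in
/-- the reduced group C*-algebra as a type -/
def Red : Type := RedS G

noncomputable instance : CStarAlgebra (Red G) := by
  exact (inferInstance : CStarAlgebra (RedS G))

/-- the inclusion -/
def inclRed : Red G →⋆ₐ[ℂ] (L2 G →L[ℂ] L2 G) := (RedS G).subtype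

lemma inclRed_inj : Function.Injective (inclRed (G := G)) := Subtype.val_injective

lemma inclRed_norm (x : Red G) : ‖inclRed x‖ = ‖x‖ := rfl

lemma lam_mem (g : G) : (lamU g : L2 G →L[ℂ] L2 G) ∈ RedS G := by
  apply StarSubalgebra.le_topologicalClosure
  refine ⟨single g 1, ?_⟩
  change gext lamU (single g 1) = _
  rw [gext_single, one_smul]

/-- the regular representation in the reduced C*-algebra -/
def uRed : G →* unitary (Red G) where
  toFun g := ⟨⟨(lamU g : L2 G →L[ℂ] L2 G), lam_mem g⟩, by
    rw [Unitary.mem_iff]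
    constructor
    · exact inclRed_inj (Unitary.coe_star_mul_self (lamU g))
    · exact inclRed_inj (Unitary.coe_mul_star_self (lamU g))⟩
  map_one' := by
    apply Subtype.ext
    apply inclRed_inj
    change (lamU (1 : G) : L2 G →L[ℂ] L2 G) = 1
    rw [map_one]; rfl
  map_mul' g h := by
    apply Subtype.ext
    apply inclRed_inj
    change (lamU (g * h) : L2 G →L[ℂ] L2 G) = (lamU g : L2 G →L[ℂ] L2 G) * lamU h
    rw [map_mul]; rfl

lemma incl_uRed (g : G) : inclRed (uRed g : Red G) = (lamU g : L2 G →L[ℂ] L2 G) := rfl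

lemma incl_gext (x : MonoidAlgebra ℂ G) : inclRed (gext uRed x) = gext lamU x := by
  induction x using MonoidAlgebra.induction_linear with
  | zero => simp
  | add x y hx hy => rw [map_add, map_add, map_add, hx, hy]
  | single g r => rw [gext_single, gext_single, map_smul, incl_uRed]

lemma dense_uRed : DenseRange (gext (uRed (G := G))) := by
  intro a
  rw [Metric.mem_closure_iff]
  intro δ hδ
  have ha : (inclRed a) ∈ closure ((redAlg0 G : StarSubalgebra ℂ (L2 G →L[ℂ] L2 G)) :
      Set (L2 G →L[ℂ] L2 G)) := by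
    rw [← StarSubalgebra.topologicalClosure_coe]
    exact a.2
  obtain ⟨_, ⟨x, rfl⟩, hx⟩ := Metric.mem_closure_iff.mp ha δ hδ
  refine ⟨_, ⟨x, rfl⟩, ?_⟩
  rw [dist_eq_norm, ← inclRed_norm, map_sub, incl_gext, ← dist_eq_norm]
  exact hx

/-- the reduced C*-algebra of a locally finite group is the full one -/
theorem exists_full (K : ℕ → Subgroup G) (hfin : ∀ n, Finite (K n))
    (hK : ∀ m n, m ≤ n → K m ≤ K n) (hK' : ∀ g, ∃ n, g ∈ K n) :
    IsFullGroupCStar G (Red G) uRed where
  dense := by
    rw [Set.eq_univ_iff_forall]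
    intro a
    refine closure_mono ?_ (dense_uRed a)
    rintro _ ⟨x, rfl⟩
    induction x using MonoidAlgebra.induction_linear with
    | zero => rw [map_zero]; exact Submodule.zero_mem _
    | add x y hx hy => rw [map_add]; exact Submodule.add_mem _ hx hy
    | single g r =>
      rw [gext_single]
      exact Submodule.smul_mem _ _ (Submodule.subset_span ⟨g, rfl⟩)
  univ := by
    intro B _ v
    have hn : ∀ x : MonoidAlgebra ℂ G, ‖(gext v).toLinearMap x‖ ≤
        1 * ‖(gext (uRed (G := G))).toLinearMap x‖ := by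
      intro x
      rw [one_mul]
      have := gext_norm_le K hfin hK hK' v x
      rw [← incl_gext, inclRed_norm] at this
      exact this
    let φ : Red G →L[ℂ] B :=
      (gext v).toLinearMap.extendOfNorm (gext (uRed (G := G))).toLinearMap
    have hφ : ∀ x, φ (gext uRed x) = gext v x := by
      intro x
      exact LinearMap.extendOfNorm_eq (f := (gext v).toLinearMap)
        (e := (gext (uRed (G := G))).toLinearMap) dense_uRed ⟨1, hn⟩ x
    have hmul : ∀ a b, φ (a * b) = φ a * φ b := by
      intro a b
      refine DenseRange.induction_on₂ (p := fun a b => φ (a * b) = φ a * φ b) dense_uRed ?_ ?_ a b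
      · exact isClosed_eq (by fun_prop) (by fun_prop)
      · intro x y
        rw [← map_mul, hφ, hφ, hφ, map_mul]
    have hstar : ∀ a, φ (star a) = star (φ a) := by
      intro a
      refine DenseRange.induction_on (p := fun a => φ (star a) = star (φ a)) dense_uRed a ?_ ?_
      · exact isClosed_eq (by fun_prop) (by fun_prop)
      · intro x
        obtain ⟨y, hy⟩ := exists_adj x
        rw [hy, hφ, hφ, hy]
    have hone : φ 1 = 1 := by
      have h1 := hφ 1
      rw [map_one (gext (uRed (G := G))), map_one (gext v)] at h1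
      exact h1
    have hcom : ∀ r : ℂ, φ (algebraMap ℂ (Red G) r) = algebraMap ℂ B r := by
      intro r
      rw [Algebra.algebraMap_eq_smul_one, Algebra.algebraMap_eq_smul_one, map_smul, hone]
    refine ⟨{ toFun := φ
              map_one' := hone
              map_mul' := hmul
              map_zero' := map_zero φ
              map_add' := map_add φ
              commutes' := hcom
              map_star' := hstar }, ?_⟩
    · intro g
      have := hφ (single g 1)
      rw [gext_single, gext_single, one_smul, one_smul] at this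
      exact this

end

end Pool.Agent.H516R3.Alt
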